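import Pool.Agent.H78.KP.Stmts
import Pool.Agent.H33.KG.BAS
import Pool.Agent.H15.KG.BOD
import Pool.Agent.H29.Sym.BC

/-!
# Project KP, module COR: the bound for the enemy
-/

set_option autoImplicit false
set_option linter.unusedSectionVars false

open MeasureTheory Set Filter Topology
open scoped ContDiff

namespace Pool.Agent.H78.KP

open Pool.Agent.H84 Pool.Agent.H84.Sym Pool.Agent.H84.Sym.P2x Pool.Agent.H19.KL
open Pool.Agent.H73.KG Pool.Agent.H20.KH

section

variable {E : Type} [NormedAddCommGroup E] [InnerProductSpace ℝ E]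
    [FiniteDimensional ℝ E] [MeasurableSpace E] [BorelSpace E]
variable {ι : Type} [Fintype ι]

omit [FiniteDimensional ℝ E] [MeasurableSpace E] [BorelSpace E] in
theorem COR_tst_mul {f g : E → ℝ} (hf : Tst f) (hg : Tst g) : Tst (fun x => f x * g x) :=
  ⟨hf.1.mul hg.1, hf.2.mul_right⟩

omit [FiniteDimensional ℝ E] [MeasurableSpace E] [BorelSpace E] in
theorem COR_tst_add {f g : E → ℝ} (hf : Tst f) (hg : Tst g) : Tst (fun x => f x + g x) :=
  ⟨hf.1.add hg.1, hf.2.add hg.2⟩

omit [FiniteDimensional ℝ E] [MeasurableSpace E] [BorelSpace E] in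
theorem COR_tst_smul {f : E → ℝ} (c : ℝ) (hf : Tst f) : Tst (fun x => c * f x) :=
  ⟨contDiff_const.mul hf.1, hf.2.mul_left⟩

omit [FiniteDimensional ℝ E] [MeasurableSpace E] [BorelSpace E] in
theorem COR_tst_sum {κ : Type} (s : Finset κ) {F : κ → E → ℝ} (hF : ∀ i, Tst (F i)) :
    Tst (fun x => ∑ i ∈ s, F i x) := by
  classical
  induction s using Finset.induction_on with
  | empty => exact ⟨by simpa using contDiff_const, by
      simp only [Finset.sum_empty]
      exact HasCompactSupport.zero⟩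
  | insert a s ha ih =>
    have h := COR_tst_add (hF a) ih
    simpa only [Finset.sum_insert ha] using h

/-- linearity of the third moments -/
theorem COR_t3_sum {V : E → ℝ} {t : ℝ} (hV : PP V t) (b : OrthonormalBasis ι ℝ E) (w : ι → ℝ)
    (v v' : E) : t3 V (∑ j, w j • b j) v v' = ∑ j, w j * t3 V (b j) v v' := by
  obtain ⟨⟨C, hC⟩, hp⟩ := hV
  have h1 : ∀ x, li (∑ j, w j • b j) x = ∑ j, w j * li (b j) x := by
    intro x
    unfold li
    rw [sum_inner]
    exact Finset.sum_congr rfl fun j _ => by rw [real_inner_smul_left]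
  have h2 : mn V (∑ j, w j • b j) = ∑ j, w j * mn V (b j) := by
    unfold Pool.Agent.H73.KG.mn
    simp_rw [h1]
    rw [integral_finsetSum _ fun j _ => ((BAS_li (b j)).integrable hC).const_mul _]
    exact Finset.sum_congr rfl fun j _ => integral_const_mul _ _
  unfold t3
  have e : (fun x => (li (∑ j, w j • b j) x - mn V (∑ j, w j • b j)) * (li v x - mn V v) *
      (li v' x - mn V v')) = fun x => ∑ j, w j * ((li (b j) x - mn V (b j)) *
        (li v x - mn V v) * (li v' x - mn V v')) := by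
    funext x
    rw [h1, h2, ← Finset.sum_sub_distrib, Finset.sum_mul, Finset.sum_mul]
    exact Finset.sum_congr rfl fun j _ => by ring
  rw [e, integral_finsetSum _ fun j _ => ((((BAS_li (b j)).sub (GC.const _)).mul
    ((BAS_li v).sub (GC.const _))).mul ((BAS_li v').sub (GC.const _))).integrable hC |>.const_mul _]
  exact Finset.sum_congr rfl fun j _ => integral_const_mul _ _

theorem COR_t3_smul (V : E → ℝ) (c : ℝ) (w v v' : E) : t3 V (c • w) v v' = c * t3 V w v v' := by
  have h1 : ∀ x, li (c • w) x = c * li w x := fun x => by unfold li; rw [real_inner_smul_left]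
  have h2 : mn V (c • w) = c * mn V w := by
    unfold Pool.Agent.H73.KG.mn
    simp_rw [h1]
    exact integral_const_mul _ _
  unfold t3
  rw [← integral_const_mul]
  congr 1
  funext x
  rw [h1, h2]
  ring

theorem COR_swap12 (U : E → ℝ) (u v w : E) : t3 U u v w = t3 U v u w := by
  unfold t3
  congr 1
  funext x
  ring

theorem COR_swap23 (U : E → ℝ) (u v w : E) : t3 U u v w = t3 U u w v := by
  unfold t3
  congr 1
  funext x
  ring

/-- the bound for all vectors -/
theorem COR_T3 {V : E → ℝ} {t κ : ℝ} (hV : PP V t) (hT : T3L V κ) (b : OrthonormalBasis ι ℝ E)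
    (w : ι → ℝ) :
    ∑ k, ∑ i, (∑ j, t3 V (b k) (b i) (b j) * w j) ^ 2 ≤ κ * ∑ j, w j ^ 2 := by
  set W : E := ∑ j, w j • b j with hW
  have hn : ‖W‖ ^ 2 = ∑ j, w j ^ 2 := by
    rw [hW]
    rw [BAS_norm b w]
    exact Finset.sum_congr rfl fun j _ => by ring
  have e1 : ∀ k i, (∑ j, t3 V (b k) (b i) (b j) * w j) = t3 V W (b k) (b i) := by
    intro k i
    rw [hW, COR_t3_sum hV b w]
    refine Finset.sum_congr rfl fun j _ => ?_
    rw [COR_swap23 V (b k) (b i) (b j), COR_swap12 V (b k) (b j) (b i)]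
    ring
  simp_rw [e1]
  rw [← hn]
  by_cases h0 : ‖W‖ = 0
  · have hW0 : W = 0 := norm_eq_zero.1 h0
    have e2 : ∀ k i, t3 V W (b k) (b i) = 0 := by
      intro k i
      have := COR_t3_smul V 0 W (b k) (b i)
      rw [zero_smul, zero_mul] at this
      rw [hW0]
      exact this
    simp [e2, h0]
  · have h1 := hT ((‖W‖)⁻¹ • W) (by
      rw [norm_smul, norm_inv, norm_norm, inv_mul_cancel₀ h0]) ι b
    have e2 : ∀ k i, t3 V W (b k) (b i) = ‖W‖ * t3 V ((‖W‖)⁻¹ • W) (b k) (b i) := by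
      intro k i
      rw [COR_t3_smul, ← mul_assoc, mul_inv_cancel₀ h0, one_mul]
    have e3 : ∑ k, ∑ i, (t3 V W (b k) (b i)) ^ 2 =
        ‖W‖ ^ 2 * ∑ k, ∑ i, (t3 V ((‖W‖)⁻¹ • W) (b k) (b i)) ^ 2 := by
      rw [Finset.mul_sum]
      refine Finset.sum_congr rfl fun k _ => ?_
      rw [Finset.mul_sum]
      refine Finset.sum_congr rfl fun i _ => ?_
      rw [e2 k i]
      ring
    rw [e3, mul_comm κ]
    exact mul_le_mul_of_nonneg_left h1 (sq_nonneg _)

theorem COR_amgm {A B X lam : ℝ} (hA : 0 ≤ A) (hB : 0 ≤ B) (hl : 0 < lam) (h : X ^ 2 ≤ A * B) :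
    2 * X ≤ lam * A + 1 / lam * B := by
  have h1 : 0 ≤ lam * A + 1 / lam * B := by positivity
  have h2 : (lam * A) * (1 / lam * B) = A * B := by
    field_simp
  by_contra h3
  push Not at h3
  nlinarith [sq_nonneg (lam * A - 1 / lam * B)]

/-- the algebraic inequality -/
theorem COR_alg (O : Matrix ι ι ℝ) (hO : CT O) (a : ι → ι → ι → ℝ) (ha : ∀ k i j, a k i j = a k j i)
    (w : ι → ℝ) (H : ι → ι → ℝ) (κ lam : ℝ) (hl : 0 < lam)
    (hM : ∑ k, ∑ i, (∑ j, a k i j * w j) ^ 2 ≤ κ * ∑ j, w j ^ 2) :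
    ∑ k, ∑ l, O k l * (∑ i, ∑ j, a k i j * (w i * H l j + w j * H l i)) ≤
      lam * κ * (∑ j, w j ^ 2) + 1 / lam * ∑ i, ∑ l, (H l i) ^ 2 := by
  have e1 : ∀ k l, (∑ i, ∑ j, a k i j * (w i * H l j + w j * H l i)) =
      2 * ∑ i, (∑ j, a k i j * w j) * H l i := by
    intro k l
    have h1 : ∑ i, ∑ j, a k i j * (w i * H l j + w j * H l i) =
        (∑ i, ∑ j, a k i j * w i * H l j) + ∑ i, ∑ j, a k i j * w j * H l i := by
      rw [← Finset.sum_add_distrib]
      refine Finset.sum_congr rfl fun i _ => ?_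
      rw [← Finset.sum_add_distrib]
      exact Finset.sum_congr rfl fun j _ => by ring
    rw [h1, Finset.sum_comm (f := fun i j => a k i j * w i * H l j), two_mul]
    congr 1
    · refine Finset.sum_congr rfl fun i _ => ?_
      rw [Finset.sum_mul]
      exact Finset.sum_congr rfl fun j _ => by rw [ha k j i]
    · refine Finset.sum_congr rfl fun i _ => ?_
      rw [Finset.sum_mul]
  have e2 : ∑ k, ∑ l, O k l * (∑ i, ∑ j, a k i j * (w i * H l j + w j * H l i)) =
      ∑ i, 2 * ∑ k, ∑ l, O k l * ((∑ j, a k i j * w j) * H l i) := by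
    simp_rw [e1]
    simp only [Finset.mul_sum]
    rw [Finset.sum_comm]
    conv_lhs =>
      enter [2, k]
      rw [Finset.sum_comm]
    rw [Finset.sum_comm]
    refine Finset.sum_congr rfl fun i _ => ?_
    rw [Finset.sum_comm]
    refine Finset.sum_congr rfl fun k _ => Finset.sum_congr rfl fun l _ => ?_
    ring
  rw [e2]
  calc ∑ i, 2 * ∑ k, ∑ l, O k l * ((∑ j, a k i j * w j) * H l i)
      ≤ ∑ i, (lam * (∑ k, (∑ j, a k i j * w j) ^ 2) + 1 / lam * ∑ l, (H l i) ^ 2) := by
        refine Finset.sum_le_sum fun i _ => ?_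
        refine COR_amgm (Finset.sum_nonneg fun _ _ => sq_nonneg _)
          (Finset.sum_nonneg fun _ _ => sq_nonneg _) hl ?_
        exact hO (fun k => ∑ j, a k i j * w j) (fun l => H l i)
    _ = lam * (∑ k, ∑ i, (∑ j, a k i j * w j) ^ 2) + 1 / lam * ∑ i, ∑ l, (H l i) ^ 2 := by
        rw [Finset.sum_add_distrib, ← Finset.mul_sum, ← Finset.mul_sum, Finset.sum_comm]
    _ ≤ lam * κ * (∑ j, w j ^ 2) + 1 / lam * ∑ i, ∑ l, (H l i) ^ 2 := by
        have := mul_le_mul_of_nonneg_left hM hl.le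
        rw [← mul_assoc] at this
        linarith

theorem COR_D (b : OrthonormalBasis ι ℝ E) {u : E → ℝ} (hu : Tst u) (a : ι → ι → ℝ) (e x : E) :
    D e (fun x => ∑ i, ∑ j, a i j * (D (b i) u x * D (b j) u x)) x =
      ∑ i, ∑ j, a i j * (D (b i) u x * D e (D (b j) u) x + D (b j) u x * D e (D (b i) u) x) := by
  have hd : ∀ i, HasFDerivAt (D (b i) u) (fderiv ℝ (D (b i) u) x) x := fun i =>
    ((C29.tst_D hu (b i)).1.differentiable (by simp)).differentiableAt.hasFDerivAt
  have h : HasFDerivAt (fun x => ∑ i, ∑ j, a i j * (D (b i) u x * D (b j) u x))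
      (∑ i, ∑ j, a i j • (D (b i) u x • fderiv ℝ (D (b j) u) x +
        D (b j) u x • fderiv ℝ (D (b i) u) x)) x :=
    HasFDerivAt.fun_sum fun i _ => HasFDerivAt.fun_sum fun j _ => ((hd i).mul (hd j)).const_mul _
  unfold D at h ⊢
  rw [h.fderiv]
  simp [mul_add]

theorem COR_cv_sum {U : E → ℝ} {t : ℝ} (hU : PP U t) (f : E → ℝ) (hf : GC f) (a : ι → ι → ℝ)
    {G : ι → ι → E → ℝ} (hG : ∀ i j, GC (G i j)) :
    cv U f (fun x => ∑ i, ∑ j, a i j * G i j x) = ∑ i, ∑ j, a i j * cv U f (G i j) := by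
  have h1 := B15_cv_sum hU (κ := ι × ι) (fun p => a p.1 p.2) (F := fun p => G p.1 p.2)
    (fun p => hG p.1 p.2) hf
  simp only [Fintype.sum_prod_type] at h1
  rw [BAS_symm, h1]
  exact Finset.sum_congr rfl fun i _ => Finset.sum_congr rfl fun j _ => by rw [BAS_symm]

end

theorem cor_thm (E : Type) [NormedAddCommGroup E] [InnerProductSpace ℝ E]
    [FiniteDimensional ℝ E] [MeasurableSpace E] [BorelSpace E] (hNSF : NSFStmt E) :
    CORStmt E := by
  intro V t' κ hV hT hκ U t hU ι _ b u lam hu hl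
  set F : ι → E → ℝ := fun k x => ∑ i, ∑ j, t3 V (b k) (b i) (b j) * (D (b i) u x * D (b j) u x)
    with hF
  set Ψ : E → ℝ := fun x => lam * κ * (∑ i, (D (b i) u x) ^ 2) + 1 / lam * hq b u x with hΨ
  have hFt : ∀ k, Tst (F k) := fun k => COR_tst_sum _ fun i => COR_tst_sum _ fun j =>
    COR_tst_smul _ (COR_tst_mul (C29.tst_D hu _) (C29.tst_D hu _))
  have hS1 : Tst (fun x => ∑ i, (D (b i) u x) ^ 2) := by
    simp only [pow_two]
    exact COR_tst_sum _ fun i => COR_tst_mul (C29.tst_D hu _) (C29.tst_D hu _)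
  have hS2 : Tst (hq b u) := by
    unfold hq
    simp only [pow_two]
    exact COR_tst_sum _ fun i => COR_tst_sum _ fun j =>
      COR_tst_mul (C29.tst_D (C29.tst_D hu _) _) (C29.tst_D (C29.tst_D hu _) _)
  have hΨt : Tst Ψ := COR_tst_add (COR_tst_smul _ hS1) (COR_tst_smul _ hS2)
  have hND : ND b F Ψ := by
    refine ⟨hFt, ?_, ?_⟩
    · obtain ⟨C, hC⟩ := ContDiff.lipschitzWith_of_hasCompactSupport hΨt.2 hΨt.1 (by simp)
      refine ⟨C, fun x y => ?_⟩
      have := hC.dist_le_mul x y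
      rwa [Real.dist_eq, dist_eq_norm] at this
    · intro O hO x
      have e : ∀ k l, D (b l) (F k) x = ∑ i, ∑ j, t3 V (b k) (b i) (b j) *
          (D (b i) u x * D (b l) (D (b j) u) x + D (b j) u x * D (b l) (D (b i) u) x) :=
        fun k l => COR_D b hu (fun i j => t3 V (b k) (b i) (b j)) (b l) x
      simp_rw [e]
      have h := COR_alg O hO (fun k i j => t3 V (b k) (b i) (b j))
        (fun k i j => COR_swap23 V _ _ _) (fun i => D (b i) u x)
        (fun l i => D (b l) (D (b i) u) x) κ lam hl (COR_T3 hV hT b fun i => D (b i) u x)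
      exact h
  have hmain := hNSF ι b F Ψ hND U t hU
  have e1 : TC b V U u = ∑ k, cv U (li (b k)) (F k) := by
    unfold TC
    refine Finset.sum_congr rfl fun k _ => ?_
    rw [hF]
    exact (COR_cv_sum hU _ (BAS_li _) _ fun i j => GC.of_BC (C29.tst_BC
      (COR_tst_mul (C29.tst_D hu _) (C29.tst_D hu _)))).symm
  have e2 : ∫ x, Ψ x ∂(mu U) = lam * κ * Y1 U u + 1 / lam * Z1 b U u := by
    obtain ⟨⟨C, hC⟩, hp⟩ := hU
    rw [hΨ, integral_add, integral_const_mul, integral_const_mul]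
    · unfold Y1 Z1
      simp_rw [norm_fderiv_sq b]
    · exact (GC.of_BC (C29.tst_BC hS1)).integrable hC |>.const_mul _
    · exact (GC.of_BC (C29.tst_BC hS2)).integrable hC |>.const_mul _
  rw [e1, ← e2]
  exact hmain

end Pool.Agent.H78.KP
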